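import Pool.Agent.H187R3.Defs

/-!
# Fibrations between klt projective varieties and the canonical bundle formula: definitions

`k` is an algebraically closed field of characteristic `p > 0`, varieties are schemes in
`Scheme.{0}` with a structure morphism to `Spec k`. Since `k` is perfect, `d c = p b^(p-1) d b = 0`
for `c = b^p` in `k`, so that `Ω_{A/ℤ} = Ω_{A/k}` for every `k`-algebra `A`: the absolute
differentials used in `Pool.Agent.H187R3.Defs` (`diffLattice`, `IsFormOrder`) are the differentials
over `k`.

A divisor on a normal variety `X` is a function on `X`, of which only the values at the points of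
codimension one (`coheight x = 1`; these are the generic points of the prime divisors) matter.
-/

open AlgebraicGeometry CategoryTheory Order

namespace Pool.Agent.W525.CB

open Pool.Agent.H187R3

/-- The map `k → K(X)` given by the structure morphism `f : X → Spec k`. -/
noncomputable def kmap {k : Type} [Field k] {X : Scheme.{0}} [IsIntegral X]
    (f : X ⟶ Spec (CommRingCat.of k)) : k →+* X.functionField :=
  (X.presheaf.germ ⊤ (genericPoint X) trivial).hom.comp
    ((Scheme.ΓSpecIso (CommRingCat.of k)).inv ≫ f.appTop).hom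

/-- `X` (with structure morphism `f`) is a projective variety over `k`: an integral scheme, proper
over `k`, with an ample Cartier divisor. -/
structure IsProjectiveVariety {k : Type} [Field k] {X : Scheme.{0}}
    (f : X ⟶ Spec (CommRingCat.of k)) : Prop where
  integral : IsIntegral X
  noeth : IsLocallyNoetherian X
  proper : IsProper f
  ample : ∃ E : X → ℤ, IsAmpleDivisor X E

/-- `KX` is a canonical divisor of `X`: the divisor of a nonzero rational top differential form
`dt_1 ∧ ... ∧ dt_r`. -/
def IsCanonicalDivisor (X : Scheme.{0}) [IsIntegral X] [IsLocallyNoetherian X] (KX : X → ℤ) : Prop :=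
  ∃ (ι : Type) (_ : Fintype ι) (_ : DecidableEq ι) (t : ι → X.functionField),
    ∀ x : X, coheight x = 1 → IsFormOrder X t x (KX x)

/-- `X` is klt: `X` is normal, `K_X` is `ℚ`-Cartier and all log discrepancies (of all prime divisors
over `X`, the exceptional and the non exceptional ones) are positive, see `IsEpsKltWith`. -/
def IsKlt (X : Scheme.{0}) [IsIntegral X] [IsLocallyNoetherian X] : Prop :=
  IsNormalScheme X ∧
  ∃ (ι : Type) (_ : Fintype ι) (_ : DecidableEq ι) (t : ι → X.functionField) (KX : X → ℤ) (m : ℕ),
    (∀ x : X, coheight x = 1 → IsFormOrder X t x (KX x)) ∧ 0 < m ∧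
    (∀ z, ∃ e, IsLocalEquation X (fun y => m * KX y) z e) ∧ IsEpsKltWith 0 X t m KX

/-- `h : X → Z` is a fibration: a surjective morphism (over `k`) with `h_* O_X = O_Z`. -/
structure IsFibration {k : Type} [Field k] {X Z : Scheme.{0}} (f : X ⟶ Spec (CommRingCat.of k))
    (g : Z ⟶ Spec (CommRingCat.of k)) (h : X ⟶ Z) : Prop where
  comp : h ≫ g = f
  surj : Surjective h
  push : ∀ U : Z.Opens, Function.Bijective (h.app U).hom

/-- The `ℚ`-divisor `D` is effective. -/
def IsEffective (Z : Scheme.{0}) (D : Z → ℚ) : Prop := ∀ z : Z, coheight z = 1 → 0 ≤ D z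

/-- The rational function `e` is a local equation of the divisor `m D` at `z`. -/
def IsLocEq (Z : Scheme.{0}) [IsIntegral Z] [IsLocallyNoetherian Z] (D : Z → ℚ) (m : ℕ) (z : Z)
    (e : Z.functionField) : Prop :=
  e ≠ 0 ∧ ∀ y : Z, coheight y = 1 → y ⤳ z → (Scheme.ord e y : ℚ) = m * D y

/-- `K_X ∼_ℚ h^* D` for a dominant morphism `h : X → Z` and a `ℚ`-divisor `D` on `Z`; this contains
the condition that `D` is `ℚ`-Cartier. In detail: for some `m > 0`, the divisor `m D` is Cartier
and `m K_X - h^* (m D)` is the divisor of a rational function `φ` on `X`; here the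
multiplicity of `h^* (m D)` at the prime divisor with generic point `x` is the order at `x` of
`h^* e`, for a local equation `e` of `m D` at `h x`. (A function `D : Z → ℚ` such that `m D` has
local equations on the noetherian scheme `Z` is nonzero at finitely many points of codimension one
only, so it is a `ℚ`-divisor.) -/
def QLinEquivPullback {X Z : Scheme.{0}} [IsIntegral X] [IsLocallyNoetherian X] [IsIntegral Z]
    [IsLocallyNoetherian Z] (h : X ⟶ Z) [IsDominant h] (KX : X → ℤ) (D : Z → ℚ) : Prop :=
  ∃ m : ℕ, 0 < m ∧ (∀ z, ∃ e, IsLocEq Z D m z e) ∧ ∃ φ : X.functionField, φ ≠ 0 ∧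
    ∀ x : X, coheight x = 1 → ∀ e, IsLocEq Z D m (h x) e →
      (m : ℤ) * KX x = Scheme.ord (functionFieldMap h e) x + Scheme.ord φ x

/-- The statement that is proved in `Pool.Agent.Results.MP_99f32e_ag`: over `k` there is a fibration
`h : X → Z` between klt projective varieties, with `K_X` relatively `ℚ`-trivial over `Z`, such that
`K_X ∼_ℚ h^* (K_Z + Δ)` for no effective `ℚ`-divisor `Δ` on `Z`. -/
def Counterexample (k : Type) [Field k] : Prop :=
  ∃ (X Z : Scheme.{0}) (f : X ⟶ Spec (CommRingCat.of k)) (g : Z ⟶ Spec (CommRingCat.of k))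
    (h : X ⟶ Z) (_ : IsIntegral X) (_ : IsLocallyNoetherian X) (_ : IsIntegral Z)
    (_ : IsLocallyNoetherian Z) (_ : IsDominant h) (KX : X → ℤ) (KZ : Z → ℤ),
    IsProjectiveVariety f ∧ IsKlt X ∧ IsProjectiveVariety g ∧ IsKlt Z ∧ IsFibration f g h ∧
    IsCanonicalDivisor X KX ∧ IsCanonicalDivisor Z KZ ∧
    (∃ D : Z → ℚ, QLinEquivPullback h KX D) ∧
    ¬ ∃ Δ : Z → ℚ, IsEffective Z Δ ∧ QLinEquivPullback h KX (fun z => (KZ z : ℚ) + Δ z)

end Pool.Agent.W525.CB
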