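import Pool.Agent.W525.CB.Stm2

/-!
# The final step (project CB, problem MP_99f32e_ag)
-/

open AlgebraicGeometry CategoryTheory Order

namespace Pool.Agent.W525.CB

open Pool.Agent.H187R3

section gen

variable {X : Scheme.{0}} [IsIntegral X] {E : Type} [Field E] (κ : X.functionField →+* E)

theorem mem_locIn {x : X} {φ : X.functionField} : κ φ ∈ locIn κ x ↔
    φ ∈ (algebraMap (X.presheaf.stalk x) X.functionField).range := by
  constructor
  · rintro ⟨a, ha⟩
    exact ⟨a, κ.injective ha⟩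
  · rintro ⟨a, rfl⟩
    exact ⟨a, rfl⟩

theorem secIn_range {U : X.Opens} {e : E} (h : e ∈ secIn κ U) : ∃ φ, κ φ = e := by
  obtain ⟨_, s, hs⟩ := h
  exact ⟨_, hs⟩

theorem ord_unit [IsLocallyNoetherian X] (hord : S_ORD) (hn : IsNormalScheme X) {x : X}
    (hx : coheight x = 1) {φ : X.functionField} (h0 : φ ≠ 0)
    (h1 : φ ∈ (algebraMap (X.presheaf.stalk x) X.functionField).range)
    (h2 : φ⁻¹ ∈ (algebraMap (X.presheaf.stalk x) X.functionField).range) :
    Scheme.ord φ x = 0 := by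
  have a1 := (hord X hn x hx φ h0).2 h1
  have a2 := (hord X hn x hx φ⁻¹ (inv_ne_zero h0)).2 h2
  have a3 : Scheme.ord (φ * φ⁻¹) x = Scheme.ord φ x + Scheme.ord φ⁻¹ x :=
    Scheme.ord_mul h0 (inv_ne_zero h0)
  have a4 : Scheme.ord (1 : X.functionField) x = 0 := by
    have h := Scheme.ord_mul (X := X) (x := x) (f := 1) (g := 1) one_ne_zero one_ne_zero
    rw [one_mul] at h
    omega
  rw [mul_inv_cancel₀ h0, a4] at a3
  omega

end gen

theorem final (P : Parts) (hproj : S_PROJ) (hfield : S_FIELD) (hpos : S_POS) (hneg : S_NEG)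
    (hanor : S_ANOR) (hlx : S_ALIFX) (hlz : S_ALIFZ) (hcx : S_ACANX) (hcz : S_ACANZ)
    (hafib : S_AFIB) (n : ℕ) (k : Type) [Field k] [IsAlgClosed k] [Fact (n + 2).Prime]
    [CharP k (n + 2)] (hn : 1 ≤ n) : Counterexample k := by
  obtain ⟨E, _, _, x, y, hE⟩ := hfield n k hn
  have hxi : ∀ a, xiX x y a ≠ 0 := fun a => mul_ne_zero (hE.dat.nx _) (hE.dat.nu _ _ a.2)
  have : Nonempty (IX n) := ⟨⟨(0, 0, 1), by simp⟩⟩
  obtain ⟨MX⟩ := hproj k E (IX n) (xiX x y) hxi
  obtain ⟨MZ⟩ := hproj k E (Fin (n + 3)) x hE.dat.nx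
  have hnor := hanor P n k E x y hn hE
  have hX : IsNormalScheme MX.X := hnor.1 MX
  have hZ : IsNormalScheme MZ.X := hnor.2 MZ
  have hLX := hlx P n k E x y hn hE
  have hLZ := hlz P n k E x y hn hE
  obtain ⟨kltX, KX, gX, hgX, hcanX, hKX⟩ := hcx P n k E x y hn hE hnor hLX MX
  obtain ⟨kltZ, KZ, gZ, hgZ, hcanZ, hKZ⟩ := hcz P n k E x y hn hE hnor hLZ MZ
  obtain ⟨h, hdom, hfibr, hκ, hU⟩ := hafib P n k E x y hn hE hnor MX MZ
  have hnx := hE.dat.nx
  -- the rational functions on `Z`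
  have hq : ∀ i j : Fin (n + 3), ∃ φ, MZ.κ φ = x i / x j := by
    intro i j
    apply secIn_range MZ.κ (U := MZ.U j)
    rw [MZ.sec j]
    exact Algebra.subset_adjoin ⟨i, rfl⟩
  choose q hq using hq
  have hqmem : ∀ (z : MZ.X) (i j : Fin (n + 3)), z ∈ MZ.U j →
      q i j ∈ (algebraMap (MZ.X.presheaf.stalk z) MZ.X.functionField).range := by
    intro z i j hz
    rw [← mem_locIn MZ.κ, hq]
    apply (P.loc MZ.X E MZ.κ (MZ.U j) (MZ.affine j) z hz).1
    rw [MZ.sec j]
    exact Algebra.subset_adjoin ⟨i, rfl⟩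
  have hq0 : ∀ i j, q i j ≠ 0 := by
    intro i j h0
    have := hq i j
    rw [h0, map_zero] at this
    exact div_ne_zero (hnx i) (hnx j) this.symm
  have hqinv : ∀ i j, (q i j)⁻¹ = q j i := by
    intro i j
    apply MZ.κ.injective
    rw [map_inv₀, hq, hq, inv_div]
  have hqmul : ∀ i j l, q i j * q j l = q i l := by
    intro i j l
    apply MZ.κ.injective
    rw [map_mul, hq, hq, hq]
    have := hnx j
    have := hnx l
    field_simp
  choose J hJ using MZ.cover
  have hOZ : ∀ (z : MZ.X), coheight z = 1 → ∀ i j, z ∈ MZ.U i → z ∈ MZ.U j →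
      Scheme.ord (q i j) z = 0 := by
    intro z hz i j hi hj
    apply ord_unit P.ord hZ hz (hq0 i j) (hqmem z i j hj)
    rw [hqinv]
    exact hqmem z j i hi
  -- the functions on `X`
  have hqX : ∀ i j, MX.κ (functionFieldMap h (q i j)) = x i / x j := by
    intro i j
    rw [hκ, hq]
  have hff0 : ∀ i j, functionFieldMap h (q i j) ≠ 0 := by
    intro i j h0
    have := hqX i j
    rw [h0, map_zero] at this
    exact div_ne_zero (hnx i) (hnx j) this.symm
  have hXmem : ∀ (Q : MX.X) (i j : Fin (n + 3)), h Q ∈ MZ.U j →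
      functionFieldMap h (q i j) ∈
        (algebraMap (MX.X.presheaf.stalk Q) MX.X.functionField).range := by
    intro Q i j hQ
    rw [← mem_locIn MX.κ, hκ]
    apply (P.hom MX.X MZ.X h E MX.κ MZ.κ hκ Q).1
    exact (mem_locIn MZ.κ).2 (hqmem (h Q) i j hQ)
  have hOX : ∀ (Q : MX.X), coheight Q = 1 → ∀ i j, h Q ∈ MZ.U i → h Q ∈ MZ.U j →
      Scheme.ord (functionFieldMap h (q i j)) Q = 0 := by
    intro Q hQ i j hi hj
    apply ord_unit P.ord hX hQ (hff0 i j) (hXmem Q i j hj)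
    rw [← map_inv₀, hqinv]
    exact hXmem Q j i hi
  have hKX' : ∀ Q : MX.X, coheight Q = 1 →
      KX Q = Scheme.ord gX Q + ((n + 1 : ℕ) : ℤ) *
        Scheme.ord (functionFieldMap h (q 0 (J (h Q)))) Q := by
    intro Q hQ
    obtain ⟨σ, a, ha, hQa, -⟩ := (P.cov n k E x y hn hE).1 MX Q
    have hz : h Q ∈ MZ.U (σ 0) := hU σ a ha hQa
    rw [hKX Q hQ σ a ha hQa (functionFieldMap h (q 0 (σ 0))) (hqX 0 (σ 0))]
    have e1 : functionFieldMap h (q 0 (J (h Q))) =
        functionFieldMap h (q 0 (σ 0)) * functionFieldMap h (q (σ 0) (J (h Q))) := by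
      rw [← map_mul, hqmul]
    rw [e1, Scheme.ord_mul (hff0 _ _) (hff0 _ _), hOX Q hQ _ _ hz (hJ (h Q))]
    push_cast
    ring
  have hKZ' : ∀ z : MZ.X, coheight z = 1 →
      KZ z = Scheme.ord gZ z + (((n + 1 : ℕ) : ℤ) + 1) * Scheme.ord (q 0 (J z)) z := by
    intro z hz
    have hσ : (Equiv.swap 0 (J z) : Equiv.Perm (Fin (n + 3))) 0 = J z := Equiv.swap_apply_left _ _
    have := hKZ z hz (Equiv.swap 0 (J z)) (by rw [hσ]; exact hJ z) (q 0 (J z))
      (by rw [hσ]; exact hq _ _)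
    rw [this]
    push_cast
    ring
  have hHloc : ∀ z w : MZ.X, w ⤳ z → coheight w = 1 →
      Scheme.ord (q 0 (J w)) w = Scheme.ord (q 0 (J z)) w := by
    intro z w hw hw1
    have hwz : w ∈ MZ.U (J z) := hw.mem_open (MZ.U (J z)).isOpen (hJ z)
    rw [← hqmul 0 (J z) (J w), Scheme.ord_mul (hq0 _ _) (hq0 _ _),
      hOZ w hw1 _ _ hwz (hJ w), add_zero]
  have hex : ∃ Q : MX.X, coheight Q = 1 ∧
      Scheme.ord (functionFieldMap h (q 0 (J (h Q)))) Q ≠ 0 := by
    by_contra hcon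
    push Not at hcon
    -- all `x_i / x_0` are regular, hence constant
    have hreg : ∀ i, ∃ c : k, algebraMap k E c = x i / x 0 := by
      intro i
      have h1 : ∀ Q : MX.X, functionFieldMap h (q i 0) ∈
          (algebraMap (MX.X.presheaf.stalk Q) MX.X.functionField).range := by
        intro Q
        apply P.hart MX.X hX Q _ (hff0 _ _)
        intro w hw _
        have e1 : functionFieldMap h (q i 0) = functionFieldMap h (q i (J (h w))) *
            functionFieldMap h (q (J (h w)) 0) := by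
          rw [← map_mul, hqmul]
        rw [e1, Scheme.ord_mul (hff0 _ _) (hff0 _ _)]
        have e2 : 0 ≤ Scheme.ord (functionFieldMap h (q i (J (h w)))) w :=
          (P.ord MX.X hX w hw _ (hff0 _ _)).2 (hXmem w _ _ (hJ (h w)))
        have e3 : Scheme.ord (functionFieldMap h (q (J (h w)) 0)) w = 0 := by
          have e4 := hcon w hw
          have e5 : Scheme.ord (functionFieldMap h (q 0 (J (h w))) *
              functionFieldMap h (q (J (h w)) 0)) w = 0 := by
            have e6 : functionFieldMap h (q 0 (J (h w))) *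
                functionFieldMap h (q (J (h w)) 0) = 1 := by
              rw [← map_mul, hqmul, ← map_one (functionFieldMap h)]
              congr 1
              apply MZ.κ.injective
              rw [hq, map_one, div_self (hnx 0)]
            rw [e6]
            have h := Scheme.ord_mul (X := MX.X) (x := w) (f := 1) (g := 1) one_ne_zero one_ne_zero
            rw [one_mul] at h
            omega
          rw [Scheme.ord_mul (hff0 _ _) (hff0 _ _), e4, zero_add] at e5
          exact e5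
        omega
      obtain ⟨c, hc⟩ := P.glob k MX.X MX.f _ h1
      refine ⟨c, ?_⟩
      rw [← MX.scal, hc, hqX]
    obtain ⟨c2, hc2⟩ := hreg ((0 : Fin (n + 1)).succ.succ)
    obtain ⟨m, rfl⟩ : ∃ m, n = m + 1 := ⟨n - 1, by omega⟩
    obtain ⟨c3, hc3⟩ := hreg ((1 : Fin (m + 1 + 1)).succ.succ)
    have hx0 := hnx 0
    have e1 : algebraMap k E c3 * x (0 : Fin (m + 1 + 1)).succ.succ =
        algebraMap k E c2 * x (1 : Fin (m + 1 + 1)).succ.succ := by
      rw [hc2, hc3]; ring
    have hinj := hE.ind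
    rw [algebraicIndependent_iff] at hinj
    have e2 := hinj (MvPolynomial.C c3 * MvPolynomial.X (Sum.inl 0) -
      MvPolynomial.C c2 * MvPolynomial.X (Sum.inl 1)) (by
        simp only [map_sub, map_mul, MvPolynomial.aeval_C, MvPolynomial.aeval_X, Sum.elim_inl]
        rw [e1, sub_self])
    have e3 := congrArg (MvPolynomial.aeval (R := k) (S₁ := k)
      (fun j : Fin (m + 1 + 1) ⊕ Fin (m + 1 + 1) => if j = Sum.inl 0 then (1 : k) else 0)) e2
    have h10 : (Sum.inl 1 : Fin (m + 1 + 1) ⊕ Fin (m + 1 + 1)) ≠ Sum.inl 0 := by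
      intro h; simpa using Sum.inl_injective h
    rw [map_sub, map_mul, map_mul, MvPolynomial.aeval_X, MvPolynomial.aeval_X, if_pos rfl,
      if_neg h10, mul_one, mul_zero, sub_zero, map_zero, MvPolynomial.aeval_C] at e3
    have e4 : c3 = 0 := e3
    rw [e4, map_zero] at hc3
    exact div_ne_zero (hnx _) hx0 hc3.symm
  have hHmem : ∀ z : MZ.X, q 0 (J z) ∈
      (algebraMap (MZ.X.presheaf.stalk z) MZ.X.functionField).range :=
    fun z => hqmem z 0 (J z) (hJ z)
  refine ⟨MX.X, MZ.X, MX.f, MZ.f, h, MX.integral, MX.noeth, MZ.integral, MZ.noeth, hdom, KX, KZ,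
    ⟨MX.integral, MX.noeth, MX.proper, MX.ample⟩, kltX,
    ⟨MZ.integral, MZ.noeth, MZ.proper, MZ.ample⟩, kltZ, hfibr, hcanX, hcanZ, ?_, ?_⟩
  · exact hpos MX.X MZ.X h hX hZ (fun z => q 0 (J z)) KX gX (n + 1) (fun z => hq0 _ _) hgX hHloc hKX'
  · exact hneg k MX.X MZ.X MX.f h hX hZ (fun z => q 0 (J z)) KX KZ gX gZ (n + 1) (fun z => hq0 _ _)
      hgX hgZ hHmem hHloc hKX' hKZ' hex

end Pool.Agent.W525.CB
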