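import Pool.Agent.W525.CB.Stm

open AlgebraicGeometry CategoryTheory Order

namespace Pool.Agent.W525.CB.Loc

open Pool.Agent.W525.CB

theorem germ_eq {X : Scheme.{0}} [IsIntegral X] (U : X.Opens) (x : X) (hx : x ∈ U)
    (hη : genericPoint X ∈ U) (s : Γ(X, U)) :
    algebraMap (X.presheaf.stalk x) X.functionField (X.presheaf.germ U x hx s) =
      X.presheaf.germ U (genericPoint X) hη s := by
  have h := TopCat.Presheaf.germ_stalkSpecializes X.presheaf hx
    ((genericPoint_spec X).specializes (y := x) trivial)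
  exact congrArg (fun g => g.hom s) h

theorem main : S_LOC := by
  intro X _ E _ κ U hU x hx
  have hη : genericPoint X ∈ U :=
    ((genericPoint_spec X).mem_open_set_iff U.isOpen).2 ⟨x, trivial, hx⟩
  constructor
  · rintro e ⟨_, s, rfl⟩
    exact ⟨X.presheaf.germ U x hx s, by rw [RingHom.comp_apply, germ_eq U x hx hη s]⟩
  · rintro e ⟨a, rfl⟩
    letI : Algebra Γ(X, U) (X.presheaf.stalk x) := (X.presheaf.germ U x hx).hom.toAlgebra
    have hloc : IsLocalization.AtPrime (X.presheaf.stalk x) (hU.primeIdealOf ⟨x, hx⟩).asIdeal :=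
      hU.isLocalization_stalk ⟨x, hx⟩
    obtain ⟨b, s, hbs⟩ := IsLocalization.exists_mk'_eq
      (hU.primeIdealOf ⟨x, hx⟩).asIdeal.primeCompl a
    have hs : IsUnit (X.presheaf.germ U x hx (s : Γ(X, U))) :=
      IsLocalization.map_units (X.presheaf.stalk x) s
    have h1 : a * X.presheaf.germ U x hx (s : Γ(X, U)) = X.presheaf.germ U x hx b := by
      rw [← hbs]
      exact IsLocalization.mk'_spec _ _ _
    obtain ⟨u, hu⟩ := hs
    have hs' : κ (X.presheaf.germ U (genericPoint X) hη (s : Γ(X, U))) ≠ 0 := by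
      rw [← germ_eq U x hx hη, ← hu]
      exact (((Units.isUnit u).map (algebraMap (X.presheaf.stalk x) X.functionField)).map κ).ne_zero
    refine ⟨κ (X.presheaf.germ U (genericPoint X) hη b),
      κ (X.presheaf.germ U (genericPoint X) hη (s : Γ(X, U))), ⟨hη, b, rfl⟩, ⟨hη, s, rfl⟩, hs', ?_, ?_⟩
    · refine ⟨((u⁻¹ : _ˣ) : X.presheaf.stalk x), ?_⟩
      symm
      apply inv_eq_of_mul_eq_one_left
      rw [← germ_eq U x hx hη, ← hu, RingHom.comp_apply, ← map_mul, ← map_mul, Units.inv_mul,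
        map_one, map_one]
    · rw [eq_div_iff hs', ← germ_eq U x hx hη, ← germ_eq U x hx hη, ← h1, RingHom.comp_apply,
        ← map_mul, ← map_mul]

end Pool.Agent.W525.CB.Loc
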