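import Pool.Agent.W525.CB.Main0
import Pool.Agent.W525.CB.Loc
import Pool.Agent.W576.CB.PUSH
import Pool.Agent.W372.CB.Fib

/-!
# The counterexample (project CB, problem MP_99f32e_ag)
-/

namespace Pool.Agent.W525.CB

theorem counterexample (p : ℕ) (hp : p.Prime) (h3 : 3 ≤ p) (k : Type) [Field k] [IsAlgClosed k]
    [CharP k p] : Counterexample k := by
  obtain ⟨n, rfl⟩ : ∃ n, p = n + 2 := ⟨p - 2, by omega⟩
  have : Fact (n + 2).Prime := ⟨hp⟩
  exact counterexample0 Loc.main
    (Pool.Agent.W576.CB.PUSH.main Pool.Agent.W446.CB.SEC.main Pool.Agent.W715.CB.main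
      Pool.Agent.W638.CB.main Pool.Agent.W899.CB.HOM.main)
    Pool.Agent.W372.CB.main n k (by omega)

end Pool.Agent.W525.CB
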