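import Pool.Agent.W525.CB.Fin
import Pool.Agent.W446.CB.SEC
import Pool.Agent.W899.CB.HOM
import Pool.Agent.W638.CB.ORD
import Pool.Agent.W715.CB.HART
import Pool.Agent.W765.CB.Glob
import Pool.Agent.W538.CB.Proj
import Pool.Agent.W73.CB.MOR
import Pool.Agent.W397.CB.SURJ
import Pool.Agent.W82.CB.NORS
import Pool.Agent.W359.CB.Klt
import Pool.Agent.W499.CB.POS
import Pool.Agent.W63.CB.NEG
import Pool.Agent.W303.CB.REL
import Pool.Agent.W881.CB.DIF
import Pool.Agent.W196.CB.V01
import Pool.Agent.W750.CB.V12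
import Pool.Agent.W2.CB.V23
import Pool.Agent.W924.CB.VBIG
import Pool.Agent.W135.CB.VOL
import Pool.Agent.W589.CB.VOLZ
import Pool.Agent.W409.CB.DIM
import Pool.Agent.W935.CB.BAS
import Pool.Agent.W140.CB.BASZ
import Pool.Agent.W701.CB.LAT
import Pool.Agent.W179.CB.LATZ
import Pool.Agent.W193.CB.FIELD
import Pool.Agent.W214.CB.FF
import Pool.Agent.W959.CB.TR
import Pool.Agent.W369.CB.AI
import Pool.Agent.W168.CB.NORM
import Pool.Agent.W154.CB.NCH
import Pool.Agent.W490.CB.CH
import Pool.Agent.W975.CB.COV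
import Pool.Agent.W486.CBF.ANor
import Pool.Agent.W143.CB.ALIFX
import Pool.Agent.W737.CB.ALIFZ
import Pool.Agent.W103.CB.ACANX
import Pool.Agent.W348.CB.ACANZ
import Pool.Agent.W293.CB.Afib

/-!
# The parts put together, except LOC, PUSH, FIB (project CB, problem MP_99f32e_ag)
-/

namespace Pool.Agent.W525.CB

theorem counterexample0 (loc : S_LOC) (push : S_PUSH) (fib : S_FIB) (n : ℕ) (k : Type) [Field k]
    [IsAlgClosed k] [Fact (n + 2).Prime] [CharP k (n + 2)] (hn : 1 ≤ n) : Counterexample k := by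
  have sec : S_SEC := Pool.Agent.W446.CB.SEC.main
  have hom : S_HOM := Pool.Agent.W899.CB.HOM.main
  have ord : S_ORD := Pool.Agent.W638.CB.main
  have hart : S_HART := Pool.Agent.W715.CB.main
  have glob : S_GLOB := Pool.Agent.W765.CB.Glob.main sec
  have rel : S_REL := Pool.Agent.W303.CB.REL.main
  have dif : S_DIF := Pool.Agent.W881.CB.DIF.main rel
  have dim : S_DIM := Pool.Agent.W409.CB.main
  have ff : S_FF := Pool.Agent.W214.CB.main
  have tr : S_TR := Pool.Agent.W959.CB.TR.main ff
  have ai : S_AI := Pool.Agent.W369.CBAI.main ff tr rel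
  have ch : S_CH := Pool.Agent.W490.CB.CH.main
  have P : Parts :=
    { loc := loc
      sec := sec
      hom := hom
      ord := ord
      hart := hart
      glob := glob
      mor := Pool.Agent.W73.CB.t_MOR
      surj := P397.main
      push := push
      nors := Pool.Agent.W82.CB.main loc
      klt := Pool.Agent.W359.CB.Klt.main
      vol := Pool.Agent.W135.CB.VOL.main rel (Pool.Agent.W196.CB.main rel dif)
        (Pool.Agent.W750.CB.main rel dif) (Pool.Agent.W2.CB.V23.main rel dif)
        Pool.Agent.W924.CB.main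
      volz := Pool.Agent.W589.CB.main
      bas := Pool.Agent.W935.CB.BAS.main dim rel dif
      basz := Pool.Agent.W140.CB.BASZ.main dim
      lat := Pool.Agent.W701.CB.LAT.main rel dif
      latz := Pool.Agent.W179.CB.main
      ff := ff
      tr := tr
      nch := Pool.Agent.W154.CB.NCH.main Pool.Agent.W168.CB.main tr ai rel ff
      ch := ch
      cov := Pool.Agent.W975.CB.COV.main rel ch loc
      fib := fib }
  exact final P Pool.Agent.W538.CB.main Pool.Agent.W193.CB.FIELD.main
    (Pool.Agent.W499.CB.POS.main hart ord hom) (Pool.Agent.W63.CB.NEG.main hart ord hom glob)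
    Pool.Agent.W486.CBF.main Pool.Agent.W143.CB.main Pool.Agent.W737.CB.main
    Pool.Agent.W103.CB.ACANX.main Pool.Agent.W348.CB.main Pool.Agent.W293.CB.main n k hn

end Pool.Agent.W525.CB
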