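import Pool.Agent.W525.CB.Defs

/-!
# Statements of the parts (project CB, problem MP_99f32e_ag)

`p = n + 2`, `n ≥ 1`. In projective space of dimension `p` with coordinates `x_0, ..., x_p` let `Z`
be the Fermat hypersurface of degree `2 p + 1 = 2 n + 5`; `X` is the set of pairs `(x, y)` with `x`
in `Z` and `y` a nonzero vector modulo scalars and modulo `(x_i ^ 2)`, such that
`∑ x_i y_i ^ p = 0`. The coordinates of `X` are `x_i * u_{jl}`, `u_{jl} = x_j ^ 2 y_l - x_l ^ 2 y_j`.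
-/

open AlgebraicGeometry CategoryTheory Order

namespace Pool.Agent.W525.CB

open Pool.Agent.H187R3

/-! ### Local rings and rings of sections inside a field -/

/-- the local ring `O_{X,x}` as a subring of a field `E` that contains the function field -/
noncomputable def locIn {X : Scheme.{0}} [IsIntegral X] {E : Type} [Field E]
    (κ : X.functionField →+* E) (x : X) : Subring E :=
  (κ.comp (algebraMap (X.presheaf.stalk x) X.functionField)).range

/-- the sections over the (nonempty) open set `U` as a subset of `E` -/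
def secIn {X : Scheme.{0}} [IsIntegral X] {E : Type} [Field E]
    (κ : X.functionField →+* E) (U : X.Opens) : Set E :=
  {e | ∃ (hη : genericPoint X ∈ U) (s : Γ(X, U)), κ (X.presheaf.germ U (genericPoint X) hη s) = e}

/-- the elements of `K` that are integral over `A` lie in `A` (`A` is a subring of `E`) -/
def IntClosedIn {E : Type} [Field E] (A K : Set E) : Prop :=
  ∀ e ∈ K, (∃ q : Polynomial E, q.Monic ∧ (∀ i, q.coeff i ∈ A) ∧ q.eval e = 0) → e ∈ A

/-! ### General facts on schemes -/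

/-- sections over an affine open set and local rings -/
def S_LOC : Prop := ∀ (X : Scheme.{0}) [IsIntegral X] (E : Type) [Field E]
    (κ : X.functionField →+* E) (U : X.Opens), IsAffineOpen U → ∀ x ∈ U,
    secIn κ U ⊆ locIn κ x ∧
    ∀ e ∈ locIn κ x, ∃ b s, b ∈ secIn κ U ∧ s ∈ secIn κ U ∧ s ≠ 0 ∧ s⁻¹ ∈ locIn κ x ∧ e = b / s

/-- a rational function that is regular at all points of `U` is a section over `U` -/
def S_SEC : Prop := ∀ (X : Scheme.{0}) [IsIntegral X] (E : Type) [Field E]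
    (κ : X.functionField →+* E) (U : X.Opens), genericPoint X ∈ U →
    ∀ e, (∀ x ∈ U, e ∈ locIn κ x) → e ∈ secIn κ U

/-- local homomorphisms of local rings -/
def S_HOM : Prop := ∀ (X Z : Scheme.{0}) [IsIntegral X] [IsIntegral Z] (h : X ⟶ Z) [IsDominant h]
    (E : Type) [Field E] (κX : X.functionField →+* E) (κZ : Z.functionField →+* E),
    (∀ φ, κX (functionFieldMap h φ) = κZ φ) → ∀ x : X,
    (locIn κZ (h x) : Set E) ⊆ locIn κX x ∧
    ∀ e ∈ locIn κZ (h x), e⁻¹ ∈ locIn κX x → e⁻¹ ∈ locIn κZ (h x)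

/-- orders at the points of codimension one of a normal scheme -/
def S_ORD : Prop := ∀ (X : Scheme.{0}) [IsIntegral X] [IsLocallyNoetherian X], IsNormalScheme X →
    ∀ x : X, coheight x = 1 → ∀ φ : X.functionField, φ ≠ 0 →
      (0 ≤ Scheme.ord φ x ↔ φ ∈ (algebraMap (X.presheaf.stalk x) X.functionField).range)

/-- Hartogs -/
def S_HART : Prop := ∀ (X : Scheme.{0}) [IsIntegral X] [IsLocallyNoetherian X], IsNormalScheme X →
    ∀ x : X, ∀ φ : X.functionField, φ ≠ 0 →
      (∀ y : X, coheight y = 1 → y ⤳ x → 0 ≤ Scheme.ord φ y) →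
      φ ∈ (algebraMap (X.presheaf.stalk x) X.functionField).range

/-- global functions are constant -/
def S_GLOB : Prop := ∀ (k : Type) [Field k] [IsAlgClosed k] (X : Scheme.{0}) [IsIntegral X]
    (f : X ⟶ Spec (CommRingCat.of k)) [IsProper f] (φ : X.functionField),
    (∀ x : X, φ ∈ (algebraMap (X.presheaf.stalk x) X.functionField).range) → ∃ c, kmap f c = φ

/-- A projective variety `X` with homogeneous coordinates `ξ_i` in the field `E` (so the function
field of `X` is the field generated by the `ξ_j / ξ_i`, and `U i` is the `i`-th affine chart). -/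
structure PM (k E : Type) [Field k] [Field E] [Algebra k E] {I : Type} (ξ : I → E) where
  X : Scheme.{0}
  f : X ⟶ Spec (CommRingCat.of k)
  integral : IsIntegral X
  κ : X.functionField →+* E
  U : I → X.Opens
  noeth : IsLocallyNoetherian X
  proper : IsProper f
  ample : ∃ Ea : X → ℤ, IsAmpleDivisor X Ea
  scal : ∀ c : k, κ (kmap f c) = algebraMap k E c
  gen : ∀ i, genericPoint X ∈ U i
  affine : ∀ i, IsAffineOpen (U i)
  cover : ∀ x, ∃ i, x ∈ U i
  sec : ∀ i, secIn κ (U i) = (Algebra.adjoin k (Set.range fun j => ξ j / ξ i) : Set E)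
  unit : ∀ x i j, x ∈ U i → (x ∈ U j ↔ ξ i / ξ j ∈ locIn κ x)

/-- existence of projective varieties with given homogeneous coordinates -/
def S_PROJ : Prop := ∀ (k : Type) [Field k] [IsAlgClosed k] (E : Type) [Field E] [Algebra k E]
    (I : Type) [Finite I] [Nonempty I] (ξ : I → E), (∀ i, ξ i ≠ 0) → Nonempty (PM k E ξ)

/-- construction of morphisms -/
def S_MOR : Prop := ∀ (k : Type) [Field k] (X Z : Scheme.{0}) [IsIntegral X] [IsIntegral Z]
    (f : X ⟶ Spec (CommRingCat.of k)) (g : Z ⟶ Spec (CommRingCat.of k)) [IsSeparated g]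
    (E : Type) [Field E] (κX : X.functionField →+* E) (κZ : Z.functionField →+* E),
    (∀ c, κX (kmap f c) = κZ (kmap g c)) →
    ∀ (A : Type) (U : A → X.Opens) (V : A → Z.Opens), (∀ a, IsAffineOpen (U a)) →
    (∀ a, IsAffineOpen (V a)) → (∀ a, genericPoint X ∈ U a) → (∀ a, genericPoint Z ∈ V a) →
    (∀ x, ∃ a, x ∈ U a) → (∀ a, secIn κZ (V a) ⊆ secIn κX (U a)) →
    ∃ h : X ⟶ Z, h ≫ g = f ∧ ∃ (_ : IsDominant h), (∀ φ, κX (functionFieldMap h φ) = κZ φ) ∧
      ∀ a, U a ≤ h ⁻¹ᵁ V a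

/-- proper dominant morphisms are surjective -/
def S_SURJ : Prop := ∀ (k : Type) [Field k] (X Z : Scheme.{0}) [IsIntegral X] [IsIntegral Z]
    (f : X ⟶ Spec (CommRingCat.of k)) (g : Z ⟶ Spec (CommRingCat.of k)) [IsProper f]
    [IsSeparated g] (h : X ⟶ Z), h ≫ g = f → IsDominant h → Surjective h

/-- the condition `h_* O_X = O_Z` -/
def S_PUSH : Prop := ∀ (X Z : Scheme.{0}) [IsIntegral X] [IsIntegral Z] [IsLocallyNoetherian Z]
    (h : X ⟶ Z) [IsDominant h], IsNormalScheme Z → Surjective h →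
    (∀ (U : Z.Opens) (hη : genericPoint X ∈ h ⁻¹ᵁ U) (s : Γ(X, h ⁻¹ᵁ U)),
      ∃ φ : Z.functionField, functionFieldMap h φ = X.presheaf.germ _ (genericPoint X) hη s) →
    ∀ U : Z.Opens, Function.Bijective (h.app U).hom

/-- normality can be checked on affine charts -/
def S_NORS : Prop := ∀ (X : Scheme.{0}) [IsIntegral X] (E : Type) [Field E]
    (κ : X.functionField →+* E) (A : Type) (U : A → X.Opens), (∀ a, IsAffineOpen (U a)) →
    (∀ a, genericPoint X ∈ U a) → (∀ x, ∃ a, x ∈ U a) →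
    (∀ a, IntClosedIn (secIn κ (U a)) (κ.range : Set E)) → IsNormalScheme X

/-- smooth schemes are klt: `c` is a basis of the differentials at `x` -/
def HasLat (X : Scheme.{0}) [IsIntegral X] (ι : Type) : Prop :=
  ∀ x : X, ∃ c : Module.Basis ι X.functionField (Ω[X.functionField⁄ℤ]),
    (Submodule.span (X.presheaf.stalk x) (Set.range c) : Submodule (X.presheaf.stalk x) _) =
      diffLattice (X.presheaf.stalk x) X.functionField

def S_KLT : Prop := ∀ (k : Type) [Field k] [IsAlgClosed k] (p : ℕ) [Fact p.Prime] [CharP k p]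
    (X : Scheme.{0}) [IsIntegral X] [IsLocallyNoetherian X] (f : X ⟶ Spec (CommRingCat.of k))
    [LocallyOfFiniteType f], IsNormalScheme X →
    ∀ (ι : Type) [Fintype ι] [DecidableEq ι] (t : ι → X.functionField)
      (b : Module.Basis ι X.functionField (Ω[X.functionField⁄ℤ])),
      (∀ i, b i = KaehlerDifferential.D ℤ X.functionField (t i)) → HasLat X ι → IsKlt X

/-- the positive statement: `K_X` is a pull back -/
def S_POS : Prop := ∀ (X Z : Scheme.{0}) [IsIntegral X] [IsLocallyNoetherian X] [IsIntegral Z]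
    [IsLocallyNoetherian Z] (h : X ⟶ Z) [IsDominant h], IsNormalScheme X → IsNormalScheme Z →
    ∀ (H : Z → Z.functionField) (KX : X → ℤ) (gX : X.functionField) (r : ℕ),
    (∀ z, H z ≠ 0) → gX ≠ 0 →
    (∀ z y : Z, y ⤳ z → coheight y = 1 → Scheme.ord (H y) y = Scheme.ord (H z) y) →
    (∀ x : X, coheight x = 1 →
      KX x = Scheme.ord gX x + r * Scheme.ord (functionFieldMap h (H (h x))) x) →
    ∃ D : Z → ℚ, QLinEquivPullback h KX D

/-- the negative statement -/
def S_NEG : Prop := ∀ (k : Type) [Field k] [IsAlgClosed k] (X Z : Scheme.{0}) [IsIntegral X]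
    [IsLocallyNoetherian X] [IsIntegral Z] [IsLocallyNoetherian Z]
    (f : X ⟶ Spec (CommRingCat.of k)) [IsProper f] (h : X ⟶ Z) [IsDominant h],
    IsNormalScheme X → IsNormalScheme Z →
    ∀ (H : Z → Z.functionField) (KX : X → ℤ) (KZ : Z → ℤ) (gX : X.functionField)
      (gZ : Z.functionField) (r : ℕ),
    (∀ z, H z ≠ 0) → gX ≠ 0 → gZ ≠ 0 →
    (∀ z, H z ∈ (algebraMap (Z.presheaf.stalk z) Z.functionField).range) →
    (∀ z y : Z, y ⤳ z → coheight y = 1 → Scheme.ord (H y) y = Scheme.ord (H z) y) →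
    (∀ x : X, coheight x = 1 →
      KX x = Scheme.ord gX x + r * Scheme.ord (functionFieldMap h (H (h x))) x) →
    (∀ z : Z, coheight z = 1 → KZ z = Scheme.ord gZ z + (r + 1) * Scheme.ord (H z) z) →
    (∃ x : X, coheight x = 1 ∧ Scheme.ord (functionFieldMap h (H (h x))) x ≠ 0) →
    ¬ ∃ Δ : Z → ℚ, IsEffective Z Δ ∧ QLinEquivPullback h KX (fun z => (KZ z : ℚ) + Δ z)

/-! ### The coordinates -/

section coord

variable {n : ℕ} {L : Type} [Field L] (x y : Fin (n + 3) → L)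

/-- the coordinates `u_{ij}` -/
def uu (i j : Fin (n + 3)) : L := x i ^ 2 * y j - x j ^ 2 * y i

/-- The coordinates of the chart `σ` (`x_{σ 0} ≠ 0`, `u_{σ 0, σ 1} ≠ 0`): the `x_{σ i} / x_{σ 0}` ... -/
def ss (σ : Equiv.Perm (Fin (n + 3))) (i : Fin (n + 3)) : L := x (σ i) / x (σ 0)

/-- ... and the `u_{σ 0, σ i} / u_{σ 0, σ 1}`. -/
def tt (σ : Equiv.Perm (Fin (n + 3))) (i : Fin (n + 3)) : L :=
  uu x y (σ 0) (σ i) / uu x y (σ 0) (σ 1)

def ww (σ : Equiv.Perm (Fin (n + 3))) (i : Fin (n + 3)) : L :=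
  ss x σ i ^ 2 - ss x σ 1 ^ 2 * tt x y σ i

/-- the equations of `X` -/
structure Dat : Prop where
  fermat : ∑ i, x i ^ (2 * n + 5) = 0
  tang : ∑ i, x i * y i ^ (n + 2) = 0
  nx : ∀ i, x i ≠ 0
  nu : ∀ i j, i ≠ j → uu x y i j ≠ 0

/-- the differentials of the coordinates of the chart `σ` of `X` -/
noncomputable def cfam (σ : Equiv.Perm (Fin (n + 3))) : Fin (n + 1) ⊕ Fin n → Ω[L⁄ℤ] :=
  Sum.elim (fun i => KaehlerDifferential.D ℤ L (tt x y σ i.succ.succ))
    (fun i => KaehlerDifferential.D ℤ L (ss x σ i.succ.succ.succ))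

/-- the differentials of the coordinates of the chart `σ` of `Z` -/
noncomputable def cfamZ (σ : Equiv.Perm (Fin (n + 3))) : Fin (n + 1) → Ω[L⁄ℤ] :=
  fun i => KaehlerDifferential.D ℤ L (ss x σ i.succ.succ)

end coord

/-- equality up to sign -/
def EqPM {L : Type} [Field L] (a b : L) : Prop := a = b ∨ a = -b

/-! ### Relations -/

/-- the relations between the coordinates of one chart, and of two charts -/
def S_REL : Prop := ∀ (n : ℕ) (L : Type) [Field L] [Fact (n + 2).Prime] [CharP L (n + 2)]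
    (x y : Fin (n + 3) → L), 1 ≤ n → Dat x y → ∀ σ : Equiv.Perm (Fin (n + 3)),
    (∀ i, ww x y σ i = uu x y (σ 1) (σ i) / uu x y (σ 1) (σ 0)) ∧
    (∑ i, ss x σ i ^ (2 * n + 5) = 0) ∧
    (ss x σ 1 + ∑ i : Fin (n + 1), ss x σ i.succ.succ * tt x y σ i.succ.succ ^ (n + 2) = 0) ∧
    (∑ i : Fin (n + 1), ss x σ i.succ.succ * ww x y σ i.succ.succ ^ (n + 2) = -1)

/-- the relations between the differentials of the coordinates -/
def S_DIF : Prop := ∀ (n : ℕ) (L : Type) [Field L] [Fact (n + 2).Prime] [CharP L (n + 2)]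
    (x y : Fin (n + 3) → L), 1 ≤ n → Dat x y → ∀ σ : Equiv.Perm (Fin (n + 3)),
    (∑ i : Fin (n + 2), ss x σ i.succ ^ (2 * n + 4) •
      KaehlerDifferential.D ℤ L (ss x σ i.succ) = 0) ∧
    (KaehlerDifferential.D ℤ L (ss x σ 1) = -∑ i : Fin (n + 1), tt x y σ i.succ.succ ^ (n + 2) •
      KaehlerDifferential.D ℤ L (ss x σ i.succ.succ)) ∧
    (∑ i : Fin (n + 1), ww x y σ i.succ.succ ^ (n + 2) •
      KaehlerDifferential.D ℤ L (ss x σ i.succ.succ) = 0)

/-- comparison of the volume forms for two charts that differ by a transposition `τ` -/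
def VolStep (n : ℕ) (τ : Equiv.Perm (Fin (n + 3))) : Prop :=
    ∀ (L : Type) [Field L] [Fact (n + 2).Prime] [CharP L (n + 2)]
    (x y : Fin (n + 3) → L), 1 ≤ n → Dat x y → ∀ (σ : Equiv.Perm (Fin (n + 3)))
    (A : (Ω[L⁄ℤ]) [⋀^(Fin (n + 1) ⊕ Fin n)]→ₗ[L] L),
    EqPM (A (cfam x y (σ * τ)) * (ww x y σ 2 ^ (n + 2) * x (σ 0) ^ (n + 1)))
      (A (cfam x y σ) * (ww x y (σ * τ) 2 ^ (n + 2) * x ((σ * τ) 0) ^ (n + 1)))

def S_V01 : Prop := ∀ n, 1 ≤ n → VolStep n (Equiv.swap 0 1)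
def S_V12 : Prop := ∀ n, 1 ≤ n → VolStep n (Equiv.swap 1 2)
def S_V23 : Prop := ∀ n, ∀ i : Fin n, VolStep n (Equiv.swap 2 i.succ.succ.succ)
def S_VBIG : Prop := ∀ n, ∀ i j : Fin n, i ≠ j →
    VolStep n (Equiv.swap i.succ.succ.succ j.succ.succ.succ)

def S_VOL : Prop := ∀ (n : ℕ) (L : Type) [Field L] [Fact (n + 2).Prime] [CharP L (n + 2)]
    (x y : Fin (n + 3) → L), 1 ≤ n → Dat x y → ∀ (σ : Equiv.Perm (Fin (n + 3)))
    (A : (Ω[L⁄ℤ]) [⋀^(Fin (n + 1) ⊕ Fin n)]→ₗ[L] L),
    EqPM (A (cfam x y σ) * (ww x y 1 2 ^ (n + 2) * x 0 ^ (n + 1)))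
      (A (cfam x y 1) * (ww x y σ 2 ^ (n + 2) * x (σ 0) ^ (n + 1)))

def S_VOLZ : Prop := ∀ (n : ℕ) (L : Type) [Field L] [Fact (n + 2).Prime] [CharP L (n + 2)]
    (x : Fin (n + 3) → L), 1 ≤ n → (∀ i, x i ≠ 0) → ∑ i, x i ^ (2 * n + 5) = 0 →
    ∀ (σ : Equiv.Perm (Fin (n + 3))) (A : (Ω[L⁄ℤ]) [⋀^(Fin (n + 1))]→ₗ[L] L),
    EqPM (A (cfamZ x σ) * (ss x 1 1 ^ (2 * n + 4) * x 0 ^ (n + 2)))
      (A (cfamZ x 1) * (ss x σ 1 ^ (2 * n + 4) * x (σ 0) ^ (n + 2)))

/-- the dimension of the space of differentials is at least the transcendence degree -/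
def S_DIM : Prop := ∀ (k : Type) [Field k] [IsAlgClosed k] (p : ℕ) [Fact p.Prime] [CharP k p]
    (L : Type) [Field L] [Algebra k L] (S : Finset L),
    IntermediateField.adjoin k (S : Set L) = ⊤ →
    ∀ (ι : Type) [Fintype ι] (v : ι → Ω[L⁄ℤ]), (Fintype.card ι : Cardinal) ≤ Algebra.trdeg k L →
      Submodule.span L (Set.range v) = ⊤ → LinearIndependent L v

/-- the differentials of the coordinates of a chart of `X` form a basis -/
def S_BAS : Prop := ∀ (n : ℕ) (k : Type) [Field k] [IsAlgClosed k] [Fact (n + 2).Prime]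
    [CharP k (n + 2)] (L : Type) [Field L] [Algebra k L] (x y : Fin (n + 3) → L), 1 ≤ n →
    Dat x y → ((2 * n + 1 : ℕ) : Cardinal) ≤ Algebra.trdeg k L →
    ∀ σ : Equiv.Perm (Fin (n + 3)),
    IntermediateField.adjoin k (Set.range (ss x σ) ∪ Set.range (tt x y σ)) = ⊤ →
    ∃ c : Module.Basis (Fin (n + 1) ⊕ Fin n) L (Ω[L⁄ℤ]), ∀ i, c i = cfam x y σ i

def S_BASZ : Prop := ∀ (n : ℕ) (k : Type) [Field k] [IsAlgClosed k] [Fact (n + 2).Prime]
    [CharP k (n + 2)] (L : Type) [Field L] [Algebra k L] (x : Fin (n + 3) → L), 1 ≤ n →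
    (∀ i, x i ≠ 0) → ∑ i, x i ^ (2 * n + 5) = 0 → ((n + 1 : ℕ) : Cardinal) ≤ Algebra.trdeg k L →
    ∀ σ : Equiv.Perm (Fin (n + 3)),
    IntermediateField.adjoin k (Set.range (ss x σ)) = ⊤ →
    ∃ c : Module.Basis (Fin (n + 1)) L (Ω[L⁄ℤ]), ∀ i, c i = cfamZ x σ i

/-- the lattice of differentials at a point of `X` -/
def S_LAT : Prop := ∀ (n : ℕ) (k : Type) [Field k] [IsAlgClosed k] [Fact (n + 2).Prime]
    [CharP k (n + 2)] (L : Type) [Field L] [Algebra k L] (x y : Fin (n + 3) → L), 1 ≤ n →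
    Dat x y → ∀ (σ : Equiv.Perm (Fin (n + 3))) (R : Type) [CommRing R] [Algebra R L],
    (∀ a ∈ Algebra.adjoin k (Set.range (ss x σ) ∪ Set.range (tt x y σ)),
      a ∈ (algebraMap R L).range) →
    (∀ r : R, ∃ b s, b ∈ Algebra.adjoin k (Set.range (ss x σ) ∪ Set.range (tt x y σ)) ∧
      s ∈ Algebra.adjoin k (Set.range (ss x σ) ∪ Set.range (tt x y σ)) ∧ s ≠ 0 ∧
      s⁻¹ ∈ (algebraMap R L).range ∧ algebraMap R L r = b / s) →
    (ww x y σ 2)⁻¹ ∈ (algebraMap R L).range →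
    (Submodule.span R (Set.range (cfam x y σ)) : Submodule R (Ω[L⁄ℤ])) = diffLattice R L

def S_LATZ : Prop := ∀ (n : ℕ) (k : Type) [Field k] [IsAlgClosed k] [Fact (n + 2).Prime]
    [CharP k (n + 2)] (L : Type) [Field L] [Algebra k L] (x : Fin (n + 3) → L), 1 ≤ n →
    (∀ i, x i ≠ 0) → ∑ i, x i ^ (2 * n + 5) = 0 →
    ∀ (σ : Equiv.Perm (Fin (n + 3))) (R : Type) [CommRing R] [Algebra R L],
    (∀ a ∈ Algebra.adjoin k (Set.range (ss x σ)), a ∈ (algebraMap R L).range) →
    (∀ r : R, ∃ b s, b ∈ Algebra.adjoin k (Set.range (ss x σ)) ∧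
      s ∈ Algebra.adjoin k (Set.range (ss x σ)) ∧ s ≠ 0 ∧
      s⁻¹ ∈ (algebraMap R L).range ∧ algebraMap R L r = b / s) →
    (ss x σ 1)⁻¹ ∈ (algebraMap R L).range →
    (Submodule.span R (Set.range (cfamZ x σ)) : Submodule R (Ω[L⁄ℤ])) = diffLattice R L

/-! ### The field `E` -/

/-- The field generated by the coordinates `x_i`, `y_i`, normalized by `y_0 = 0`, `y_1 = 1`. -/
structure EDat (n : ℕ) (k E : Type) [Field k] [Field E] [Algebra k E] (x y : Fin (n + 3) → E) :
    Prop where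
  dat : Dat x y
  y0 : y 0 = 0
  y1 : y 1 = 1
  ind : AlgebraicIndependent k (Sum.elim (fun i : Fin (n + 1) => x i.succ.succ)
    (fun i : Fin (n + 1) => y i.succ.succ))
  gen : IntermediateField.adjoin k (Set.range x ∪ Set.range y) = ⊤

def S_FIELD : Prop := ∀ (n : ℕ) (k : Type) [Field k] [IsAlgClosed k] [Fact (n + 2).Prime]
    [CharP k (n + 2)], 1 ≤ n → ∃ (E : Type) (_ : Field E) (_ : Algebra k E)
    (x y : Fin (n + 3) → E), EDat n k E x y

section E

variable {n : ℕ} (k : Type) {E : Type} [Field k] [Field E] [Algebra k E] (x y : Fin (n + 3) → E)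

/-- the function field of `X` -/
def FX : IntermediateField k E :=
  IntermediateField.adjoin k ((Set.range fun i => x i / x 0) ∪ Set.range y)

/-- the function field of `Z` -/
def FZ : IntermediateField k E := IntermediateField.adjoin k (Set.range fun i => x i / x 0)

/-- the coordinate ring of the chart `σ` of `X` -/
def AX (σ : Equiv.Perm (Fin (n + 3))) : Subalgebra k E :=
  Algebra.adjoin k (Set.range (ss x σ) ∪ Set.range (tt x y σ))

/-- the coordinate ring of the chart `σ` of `Z` -/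
def AZ (σ : Equiv.Perm (Fin (n + 3))) : Subalgebra k E := Algebra.adjoin k (Set.range (ss x σ))

/-- the homogeneous coordinates of `X` -/
abbrev IX (n : ℕ) : Type := {a : Fin (n + 3) × Fin (n + 3) × Fin (n + 3) // a.2.1 ≠ a.2.2}

def xiX (a : IX n) : E := x a.1.1 * uu x y a.1.2.1 a.1.2.2

end E

/-- the fields of fractions of the charts, and transcendence degrees -/
def S_FF : Prop := ∀ (n : ℕ) (k E : Type) [Field k] [IsAlgClosed k] [Fact (n + 2).Prime]
    [CharP k (n + 2)] [Field E] [Algebra k E] (x y : Fin (n + 3) → E), 1 ≤ n → EDat n k E x y →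
    (∀ σ, IntermediateField.adjoin k (Set.range (ss x σ) ∪ Set.range (tt x y σ)) = FX k x y) ∧
    (∀ σ, IntermediateField.adjoin k (Set.range (ss x σ)) = FZ k x)

def S_TR : Prop := ∀ (n : ℕ) (k E : Type) [Field k] [IsAlgClosed k] [Fact (n + 2).Prime]
    [CharP k (n + 2)] [Field E] [Algebra k E] (x y : Fin (n + 3) → E), 1 ≤ n → EDat n k E x y →
    ((2 * n + 1 : ℕ) : Cardinal) ≤ Algebra.trdeg k (FX k x y) ∧
    ((n + 1 : ℕ) : Cardinal) ≤ Algebra.trdeg k (FZ k x) ∧
    (∀ i, Transcendental (FX k x y) (x i))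

/-- algebraic independence of the coordinates -/
def S_AI : Prop := ∀ (n : ℕ) (k E : Type) [Field k] [IsAlgClosed k] [Fact (n + 2).Prime]
    [CharP k (n + 2)] [Field E] [Algebra k E] (x y : Fin (n + 3) → E), 1 ≤ n → EDat n k E x y →
    ∀ σ : Equiv.Perm (Fin (n + 3)),
    AlgebraicIndependent k (Sum.elim (fun i : Fin (n + 1) => x (σ i.succ.succ))
      (fun i : Fin (n + 1) => tt x y σ i.succ.succ)) ∧
    AlgebraicIndependent k (fun i : Fin (n + 2) => x (σ i.succ))

/-- normality of cyclic covers of the affine space outside the branch locus -/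
def S_NORM : Prop := ∀ (k : Type) [Field k] (E : Type) [Field E] [Algebra k E] (ι : Type)
    [Finite ι] (z : ι → E) (q : ℕ) (c : MvPolynomial ι k) (x₀ : E)
    (θ : MvPolynomial ι k →ₐ[k] Polynomial k), Odd q → (q : k) ≠ 0 → AlgebraicIndependent k z →
    x₀ ≠ 0 → x₀ ^ q = MvPolynomial.aeval z c → θ c = -(Polynomial.X ^ q + 1) →
    IntClosedIn (Algebra.adjoin k (Set.range z ∪ {x₀, x₀⁻¹}) : Set E)
      (IntermediateField.adjoin k (Set.range z ∪ {x₀}) : Set E)

/-- normality of the charts -/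
def S_NCH : Prop := ∀ (n : ℕ) (k E : Type) [Field k] [IsAlgClosed k] [Fact (n + 2).Prime]
    [CharP k (n + 2)] [Field E] [Algebra k E] (x y : Fin (n + 3) → E), 1 ≤ n → EDat n k E x y →
    ∀ σ : Equiv.Perm (Fin (n + 3)),
    IntClosedIn (AX k x y σ : Set E) (FX k x y : Set E) ∧
    IntClosedIn (AZ k x σ : Set E) (FZ k x : Set E)

/-- the coordinate rings of the charts in terms of the homogeneous coordinates -/
def S_CH : Prop := ∀ (n : ℕ) (k E : Type) [Field k] [Field E] [Algebra k E]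
    (x y : Fin (n + 3) → E), Dat x y →
    (∀ (σ : Equiv.Perm (Fin (n + 3))) (a : IX n), a.1 = (σ 0, σ 0, σ 1) →
      Algebra.adjoin k (Set.range fun b => xiX x y b / xiX x y a) = AX k x y σ) ∧
    (∀ (σ : Equiv.Perm (Fin (n + 3))),
      Algebra.adjoin k (Set.range fun b => x b / x (σ 0)) = AZ k x σ) ∧
    (∀ (σ : Equiv.Perm (Fin (n + 3))), AZ k x σ ≤ AX k x y σ)

/-- The charts `(σ 0, σ 0, σ 1)` cover `X`, even with `w_2` invertible; the charts of `Z` with
`x_{σ 1}` invertible cover `Z`. -/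
def S_COV : Prop := ∀ (n : ℕ) (k E : Type) [Field k] [IsAlgClosed k] [Fact (n + 2).Prime]
    [CharP k (n + 2)] [Field E] [Algebra k E] (x y : Fin (n + 3) → E), 1 ≤ n → EDat n k E x y →
    (∀ (M : PM k E (xiX x y)) (P : M.X), ∃ (σ : Equiv.Perm (Fin (n + 3))) (a : IX n),
      a.1 = (σ 0, σ 0, σ 1) ∧ P ∈ M.U a ∧ (ww x y σ 2)⁻¹ ∈
        @locIn M.X M.integral E _ M.κ P) ∧
    (∀ (M : PM k E x) (P : M.X), ∃ (σ : Equiv.Perm (Fin (n + 3))),
      P ∈ M.U (σ 0) ∧ (ss x σ 1)⁻¹ ∈ @locIn M.X M.integral E _ M.κ P)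

/-- the functions that are regular on the generic fibre are constant on it -/
def S_FIB : Prop := ∀ (n : ℕ) (k E : Type) [Field k] [IsAlgClosed k] [Fact (n + 2).Prime]
    [CharP k (n + 2)] [Field E] [Algebra k E] (x y : Fin (n + 3) → E), 1 ≤ n → EDat n k E x y →
    ∀ e : E, e ∈ Algebra.adjoin (FZ k x) (Set.range y) →
      e ∈ Algebra.adjoin (FZ k x) (Set.range fun i => y i / y 2) → e ∈ FZ k x

end Pool.Agent.W525.CB
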