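import Pool.Agent.W525.CB.Stm

/-!
# Statements of the assembly (project CB, problem MP_99f32e_ag)
-/

open AlgebraicGeometry CategoryTheory Order

namespace Pool.Agent.W525.CB

open Pool.Agent.H187R3

attribute [instance] PM.integral PM.noeth PM.proper

/-- all the parts -/
structure Parts : Prop where
  loc : S_LOC
  sec : S_SEC
  hom : S_HOM
  ord : S_ORD
  hart : S_HART
  glob : S_GLOB
  mor : S_MOR
  surj : S_SURJ
  push : S_PUSH
  nors : S_NORS
  klt : S_KLT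
  vol : S_VOL
  volz : S_VOLZ
  bas : S_BAS
  basz : S_BASZ
  lat : S_LAT
  latz : S_LATZ
  ff : S_FF
  tr : S_TR
  nch : S_NCH
  ch : S_CH
  cov : S_COV
  fib : S_FIB

section

variable (n : ℕ) (k E : Type) [Field k] [Field E] [Algebra k E] (x y : Fin (n + 3) → E)

/-- normality of `X` and `Z` -/
def C_NOR : Prop := (∀ M : PM k E (xiX x y), IsNormalScheme M.X) ∧
  (∀ M : PM k E x, IsNormalScheme M.X)

/-- The coordinates as elements of the function field `K(X)`, and the coordinate rings of the charts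
in `K(X)`; `K(X)` is a `k`-algebra by `kmap`. -/
def C_LIFX : Prop := ∀ M : PM k E (xiX x y), ∃ X Y : Fin (n + 3) → M.X.functionField,
    Dat X Y ∧ X 0 = 1 ∧ (∀ i, M.κ (X i) = x i / x 0) ∧ (∀ i, M.κ (Y i) = y i) ∧
    (∀ σ i, M.κ (ss X σ i) = ss x σ i) ∧ (∀ σ i, M.κ (tt X Y σ i) = tt x y σ i) ∧
    (∀ σ i, M.κ (ww X Y σ i) = ww x y σ i) ∧
    (letI : Algebra k M.X.functionField := (kmap M.f).toAlgebra;
      ((2 * n + 1 : ℕ) : Cardinal) ≤ Algebra.trdeg k M.X.functionField ∧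
      (∀ σ, IntermediateField.adjoin k (Set.range (ss X σ) ∪ Set.range (tt X Y σ)) = ⊤) ∧
      ∀ (σ : Equiv.Perm (Fin (n + 3))) (a : IX n), a.1 = (σ 0, σ 0, σ 1) → ∀ P ∈ M.U a,
        (∀ e ∈ Algebra.adjoin k (Set.range (ss X σ) ∪ Set.range (tt X Y σ)),
          e ∈ (algebraMap (M.X.presheaf.stalk P) M.X.functionField).range) ∧
        (∀ r : M.X.presheaf.stalk P, ∃ b s,
          b ∈ Algebra.adjoin k (Set.range (ss X σ) ∪ Set.range (tt X Y σ)) ∧
          s ∈ Algebra.adjoin k (Set.range (ss X σ) ∪ Set.range (tt X Y σ)) ∧ s ≠ 0 ∧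
          s⁻¹ ∈ (algebraMap (M.X.presheaf.stalk P) M.X.functionField).range ∧
          algebraMap (M.X.presheaf.stalk P) M.X.functionField r = b / s))

def C_LIFZ : Prop := ∀ M : PM k E x, ∃ X : Fin (n + 3) → M.X.functionField,
    (∀ i, X i ≠ 0) ∧ ∑ i, X i ^ (2 * n + 5) = 0 ∧ X 0 = 1 ∧ (∀ i, M.κ (X i) = x i / x 0) ∧
    (∀ σ i, M.κ (ss X σ i) = ss x σ i) ∧
    (letI : Algebra k M.X.functionField := (kmap M.f).toAlgebra;
      ((n + 1 : ℕ) : Cardinal) ≤ Algebra.trdeg k M.X.functionField ∧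
      (∀ σ, IntermediateField.adjoin k (Set.range (ss X σ)) = ⊤) ∧
      ∀ (σ : Equiv.Perm (Fin (n + 3))), ∀ P ∈ M.U (σ 0),
        (∀ e ∈ Algebra.adjoin k (Set.range (ss X σ)),
          e ∈ (algebraMap (M.X.presheaf.stalk P) M.X.functionField).range) ∧
        (∀ r : M.X.presheaf.stalk P, ∃ b s,
          b ∈ Algebra.adjoin k (Set.range (ss X σ)) ∧
          s ∈ Algebra.adjoin k (Set.range (ss X σ)) ∧ s ≠ 0 ∧
          s⁻¹ ∈ (algebraMap (M.X.presheaf.stalk P) M.X.functionField).range ∧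
          algebraMap (M.X.presheaf.stalk P) M.X.functionField r = b / s))

/-- `X` is klt, and the canonical divisor -/
def C_CANX : Prop := ∀ M : PM k E (xiX x y), IsKlt M.X ∧
  ∃ (KX : M.X → ℤ) (gX : M.X.functionField), gX ≠ 0 ∧ IsCanonicalDivisor M.X KX ∧
    ∀ P : M.X, coheight P = 1 → ∀ (σ : Equiv.Perm (Fin (n + 3))) (a : IX n),
      a.1 = (σ 0, σ 0, σ 1) → P ∈ M.U a → ∀ H : M.X.functionField, M.κ H = x 0 / x (σ 0) →
        KX P = Scheme.ord gX P + (n + 1) * Scheme.ord H P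

def C_CANZ : Prop := ∀ M : PM k E x, IsKlt M.X ∧
  ∃ (KZ : M.X → ℤ) (gZ : M.X.functionField), gZ ≠ 0 ∧ IsCanonicalDivisor M.X KZ ∧
    ∀ P : M.X, coheight P = 1 → ∀ (σ : Equiv.Perm (Fin (n + 3))),
      P ∈ M.U (σ 0) → ∀ H : M.X.functionField, M.κ H = x 0 / x (σ 0) →
        KZ P = Scheme.ord gZ P + (n + 2) * Scheme.ord H P

/-- the fibration -/
def C_FIB : Prop := ∀ (MX : PM k E (xiX x y)) (MZ : PM k E x),
  ∃ (h : MX.X ⟶ MZ.X) (_ : IsDominant h), IsFibration MX.f MZ.f h ∧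
    (∀ φ, MX.κ (functionFieldMap h φ) = MZ.κ φ) ∧
    (∀ (σ : Equiv.Perm (Fin (n + 3))) (a : IX n), a.1 = (σ 0, σ 0, σ 1) →
      MX.U a ≤ h ⁻¹ᵁ MZ.U (σ 0))

end

/-- `T C` : the conclusion `C` holds for the field `E` of `S_FIELD` -/
def Tst (C : ∀ (n : ℕ) (k E : Type) [Field k] [Field E] [Algebra k E] (_ _ : Fin (n + 3) → E), Prop) :
    Prop := ∀ (n : ℕ) (k E : Type) [Field k] [IsAlgClosed k] [Fact (n + 2).Prime]
    [CharP k (n + 2)] [Field E] [Algebra k E] (x y : Fin (n + 3) → E), 1 ≤ n → EDat n k E x y →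
    C n k E x y

def S_ANOR : Prop := Parts → Tst (fun n k E _ _ _ x y => C_NOR n k E x y)
def S_ALIFX : Prop := Parts → Tst (fun n k E _ _ _ x y => C_LIFX n k E x y)
def S_ALIFZ : Prop := Parts → Tst (fun n k E _ _ _ x _ => C_LIFZ n k E x)
def S_ACANX : Prop := Parts → Tst (fun n k E _ _ _ x y =>
  C_NOR n k E x y → C_LIFX n k E x y → C_CANX n k E x y)
def S_ACANZ : Prop := Parts → Tst (fun n k E _ _ _ x y =>
  C_NOR n k E x y → C_LIFZ n k E x → C_CANZ n k E x)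
def S_AFIB : Prop := Parts → Tst (fun n k E _ _ _ x y => C_NOR n k E x y → C_FIB n k E x y)

end Pool.Agent.W525.CB
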